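import Pool.Agent.Zk89.PE.Defs

/-!
# From the block decomposition to convergence along powers of two
-/

set_option autoImplicit false
set_option linter.unusedSectionVars false

open Finset Filter Topology MeasureTheory

noncomputable section

namespace Pool.Agent.Zk4.PE

open Pool.Agent.Zk89.MT
open Pool.Agent.Zk89.BT (ml nrm th DK ml_sum ml_smul ml_shift ml_sub)
open Pool.Agent.Zk89.PE
open Pool.Agent.Helper602.MK (ee)
open Pool.Agent.Helper602.MK.N_J5b (ee_add ee_zero norm_ee)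

/-- the index type -/
abbrev Ix (D : ℕ) : Type := ℕ ⊕ (ℕ × (Fin D → ℕ))

/-- the sides -/
def Ls (Q t r : ℕ) : ℕ := (2 ^ t) ^ (r + 1) / Q

/-- the index sets -/
def Ii (D Q t : ℕ) : Finset (Ix D) :=
  (range (2 ^ t)).disjSum
    (range Q ×ˢ Fintype.piFinset (fun r : Fin D => range (Ls Q t r)))

/-- extension by zero -/
def ex0 {D : ℕ} (z : Fin D → ℕ) (r : ℕ) : ℕ := if h : r < D then z ⟨r, h⟩ else 0

/-- the vectors -/
def Vi {D : ℕ} (Q : ℕ) : Ix D → ℕ → ℕ
  | Sum.inl n, r => n ^ (r + 1)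
  | Sum.inr p, r => p.1 ^ (r + 1) + Q * ex0 p.2 r

/-- the coefficients -/
def Ci {D : ℕ} (Q t : ℕ) : Ix D → ℂ
  | Sum.inl _ => ((2 ^ t : ℕ) : ℂ)⁻¹
  | Sum.inr _ => -((Q : ℂ)⁻¹ * (∏ r : Fin D, ((Ls Q t r : ℕ) : ℂ))⁻¹)

theorem ee_sum {ι : Type*} (s : Finset ι) (g : ι → ℝ) : ee (∑ i ∈ s, g i) = ∏ i ∈ s, ee (g i) := by
  classical
  induction s using Finset.induction_on with
  | empty => simp [ee_zero]
  | insert a s ha ih => rw [sum_insert ha, prod_insert ha, ee_add, ih]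

/-- the operator as a multiplier -/
theorem opZ_ml {M : ℕ} [NeZero M] {ι : Type} (D : ℕ) (I : Finset ι) (v : ι → ℕ → ℕ) (c : ι → ℂ)
    (B : ℕ → ℕ) (f : ZMod M → ℂ) (x : ZMod M) :
    opZ D I v c B f x =
      ml (fun k => ∑ i ∈ I, c i * ee (((∑ r ∈ range D, v i r * B r : ℕ) : ℝ) * th k)) f x := by
  rw [ml_sum]
  unfold opZ
  refine sum_congr rfl fun i _ => ?_
  rw [ml_smul, ← ml_shift]

theorem w_eq (D Q : ℕ) (ξ : ℕ → ℝ) :
    w D Q ξ = (Q : ℂ)⁻¹ * ∑ n ∈ range Q, ee (∑ r ∈ range D, ((n ^ (r + 1) : ℕ) : ℝ) * ξ r) := by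
  unfold w ph
  congr 1
  refine sum_congr rfl fun n _ => ?_
  congr 1
  refine sum_congr rfl fun r _ => ?_
  push_cast
  ring

theorem bk_eq (D Q t : ℕ) (ξ : ℕ → ℝ) :
    bk D (fun r => (2 ^ t) ^ (r + 1) / Q) (fun r => Q * ξ r) =
      (∏ r : Fin D, ((Ls Q t r : ℕ) : ℂ))⁻¹ *
        ∑ z ∈ Fintype.piFinset (fun r : Fin D => range (Ls Q t r)),
          ee (∑ r ∈ range D, ((Q * ex0 z r : ℕ) : ℝ) * ξ r) := by
  unfold bk DK
  rw [Finset.prod_range, Finset.prod_mul_distrib, Finset.prod_inv_distrib]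
  congr 1
  rw [Finset.prod_univ_sum]
  refine sum_congr rfl fun z _ => ?_
  rw [ee_sum, Finset.prod_range]
  refine prod_congr rfl fun r _ => ?_
  congr 1
  have : ex0 z r = z r := by
    unfold ex0
    simp
  rw [this]
  push_cast
  ring

/-- the multiplier of the difference -/
theorem mult_eq (D Q t : ℕ) (ξ : ℕ → ℝ) :
    ∑ i ∈ Ii D Q t, Ci Q t i * ee (∑ r ∈ range D, ((Vi Q i r : ℕ) : ℝ) * ξ r) =
      w D (2 ^ t) ξ - sm D Q t ξ := by
  unfold Ii
  rw [sum_disjSum, sub_eq_add_neg]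
  congr 1
  · rw [w_eq, mul_sum]
    rfl
  · unfold sm
    rw [w_eq, bk_eq, sum_product]
    have e : ∀ (n : ℕ) (z : Fin D → ℕ),
        Ci (D := D) Q t (Sum.inr (n, z)) *
          ee (∑ r ∈ range D, ((Vi (D := D) Q (Sum.inr (n, z)) r : ℕ) : ℝ) * ξ r) =
        -((Q : ℂ)⁻¹ * (∏ r : Fin D, ((Ls Q t r : ℕ) : ℂ))⁻¹) *
          (ee (∑ r ∈ range D, ((n ^ (r + 1) : ℕ) : ℝ) * ξ r) *
            ee (∑ r ∈ range D, ((Q * ex0 z r : ℕ) : ℝ) * ξ r)) := by
      intro n z
      rw [← ee_add, ← sum_add_distrib]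
      have e2 : ∀ r ∈ range D, ((Vi (D := D) Q (Sum.inr (n, z)) r : ℕ) : ℝ) * ξ r =
          ((n ^ (r + 1) : ℕ) : ℝ) * ξ r + ((Q * ex0 z r : ℕ) : ℝ) * ξ r := by
        intro r _
        show ((n ^ (r + 1) + Q * ex0 z r : ℕ) : ℝ) * ξ r = _
        push_cast
        ring
      rw [sum_congr rfl e2]
      rfl
    simp only [e]
    simp only [← mul_sum, ← sum_mul]
    ring

theorem opZ_eq {M : ℕ} [NeZero M] (D Q t : ℕ) (B : ℕ → ℕ) (f : ZMod M → ℂ) (x : ZMod M) :
    opZ D (Ii D Q t) (Vi Q) (Ci Q t) B f x =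
      ml (fun k => w D (2 ^ t) (fun r => B r * th k) - sm D Q t (fun r => B r * th k)) f x := by
  rw [opZ_ml]
  congr 1
  funext k
  rw [← mult_eq]
  refine sum_congr rfl fun i _ => ?_
  congr 2
  push_cast
  rw [sum_mul]
  refine sum_congr rfl fun r _ => ?_
  ring

section action

variable {X : Type} [MeasurableSpace X] {μ : Measure X} [IsProbabilityMeasure μ]
  {C : Type} [CommGroup C] {Ψ : C →* Equiv.Perm X}

/-- the comparison averages -/
def sg (Ψ : C →* Equiv.Perm X) (a : ℕ → C) (D Q : ℕ) (F : X → ℂ) (t : ℕ) (x : X) : ℂ :=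
  (Q : ℂ)⁻¹ * ∑ n ∈ range Q, ((∏ r : Fin D, ((Ls Q t r : ℕ) : ℂ))⁻¹ *
    ∑ z ∈ Fintype.piFinset (fun r : Fin D => range (Ls Q t r)),
      F (Ψ (∏ r : Fin D, a r ^ (Q * z r)) (Ψ (gc a D n) x)))

theorem opX_eq (a : ℕ → C) (D Q : ℕ) (F : X → ℂ) (t : ℕ) (x : X) :
    opX Ψ a D (Ii D Q t) (Vi Q) (Ci Q t) F x = cav Ψ a D F (2 ^ t) x - sg Ψ a D Q F t x := by
  unfold opX Ii
  rw [sum_disjSum, sub_eq_add_neg]
  congr 1
  · unfold cav
    rw [mul_sum]
    rfl
  · unfold sg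
    rw [sum_product, mul_sum, ← sum_neg_distrib]
    refine sum_congr rfl fun n _ => ?_
    rw [← mul_assoc, mul_sum, ← sum_neg_distrib]
    refine sum_congr rfl fun z _ => ?_
    have e : (∏ r ∈ range D, a r ^ Vi (D := D) Q (Sum.inr (n, z)) r) =
        (∏ r : Fin D, a r ^ (Q * z r)) * gc a D n := by
      unfold gc
      rw [Finset.prod_range, Finset.prod_range, ← prod_mul_distrib]
      refine prod_congr rfl fun r _ => ?_
      have : ex0 z r = z r := by
        unfold ex0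
        simp
      show a r ^ ((r : ℕ) |> fun r => n ^ (r + 1) + Q * ex0 z r) = _
      simp only [this]
      rw [pow_add, mul_comm]
    rw [e, map_mul, Equiv.Perm.mul_apply]
    show -((Q : ℂ)⁻¹ * (∏ r : Fin D, ((Ls Q t r : ℕ) : ℂ))⁻¹) * _ = _
    ring

theorem sg_meas (hmp : ∀ a, MeasurePreserving (Ψ a) μ μ) (a : ℕ → C) (D Q : ℕ) {F : X → ℂ}
    (hF : Measurable F) (t : ℕ) : Measurable (sg Ψ a D Q F t) := by
  unfold sg
  refine Measurable.const_mul (Finset.measurable_sum _ fun n _ => ?_) _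
  refine Measurable.const_mul (Finset.measurable_sum _ fun z _ => ?_) _
  exact hF.comp ((hmp _).measurable.comp (hmp _).measurable)

theorem cav_meas (hmp : ∀ a, MeasurePreserving (Ψ a) μ μ) (a : ℕ → C) (D : ℕ) {F : X → ℂ}
    (hF : Measurable F) (N : ℕ) : Measurable (cav Ψ a D F N) := by
  unfold cav
  exact Measurable.const_mul (Finset.measurable_sum _ fun n _ => hF.comp (hmp _).measurable) _

theorem avg_le {ι : Type*} (s : Finset ι) (g : ι → ℂ) (c : ℂ) (hc : ‖c‖ * s.card ≤ 1)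
    (hg : ∀ i ∈ s, ‖g i‖ ≤ 1) : ‖c * ∑ i ∈ s, g i‖ ≤ 1 := by
  rw [norm_mul]
  refine le_trans ?_ hc
  refine mul_le_mul_of_nonneg_left ?_ (norm_nonneg _)
  refine (norm_sum_le _ _).trans ((sum_le_sum hg).trans ?_)
  rw [sum_const, nsmul_eq_mul, mul_one]

theorem inv_card (n : ℕ) : ‖((n : ℂ))⁻¹‖ * n ≤ 1 := by
  rw [norm_inv, Complex.norm_natCast]
  exact inv_mul_le_one

theorem cav_le (a : ℕ → C) (D : ℕ) {F : X → ℂ} (hF : ∀ x, ‖F x‖ ≤ 1) (N : ℕ) (x : X) :
    ‖cav Ψ a D F N x‖ ≤ 1 := by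
  unfold cav
  refine avg_le _ _ _ ?_ fun _ _ => hF _
  rw [card_range]
  exact inv_card N

theorem sg_le (a : ℕ → C) (D Q : ℕ) {F : X → ℂ} (hF : ∀ x, ‖F x‖ ≤ 1) (t : ℕ) (x : X) :
    ‖sg Ψ a D Q F t x‖ ≤ 1 := by
  unfold sg
  refine avg_le _ _ _ ?_ fun n _ => avg_le _ _ _ ?_ fun _ _ => hF _
  · rw [card_range]
    exact inv_card Q
  · have h := inv_card (∏ r : Fin D, Ls Q t r)
    rw [Fintype.card_piFinset]
    simp only [card_range]
    push_cast at h ⊢
    exact h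

end action

/-- **The module DYA.** -/
theorem thmDYA : S_DYA := by
  intro D hTR hAB hBX hBLK X C _ μ _ _ Ψ hmp a F hF ⟨b, hb⟩
  classical
  -- normalization
  set s : ℝ := |b| + 1 with hs
  have hs0 : 0 < s := by positivity
  set F' : X → ℂ := fun x => (s : ℂ)⁻¹ * F x with hF'
  have hF'm : Measurable F' := hF.const_mul _
  have hF'1 : ∀ x, ‖F' x‖ ≤ 1 := by
    intro x
    simp only [hF']
    rw [norm_mul, norm_inv, Complex.norm_real, Real.norm_eq_abs, abs_of_pos hs0,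
      inv_mul_le_iff₀ hs0, mul_one]
    exact (hb x).trans ((le_abs_self b).trans (by linarith))
  have hcav : ∀ N x, cav Ψ a D F N x = s * cav Ψ a D F' N x := by
    intro N x
    have hsc : (s : ℂ) ≠ 0 := by exact_mod_cast hs0.ne'
    unfold cav
    simp only [hF', ← mul_sum]
    field_simp
  have main : ∀ᵐ x ∂μ, ∃ L, Tendsto (fun t : ℕ => cav Ψ a D F' (2 ^ t) x) atTop (𝓝 L) := by
    refine hAB (fun t => cav Ψ a D F' (2 ^ t)) (fun t => cav_meas hmp a D hF'm _)
      (fun t x => cav_le a D hF'1 _ x) fun ε hε => ?_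
    obtain ⟨Q, t₀, K, hQ, hK, -, hblk⟩ := hBLK (ε / 4) (by positivity)
    refine ⟨fun t => sg Ψ a D Q F' t, t₀, 4 * K, fun t => sg_meas hmp a D Q hF'm t,
      fun t x => sg_le a D Q hF'1 t x, ?_, ?_⟩
    · -- convergence of the comparison averages
      have h1 : ∀ n : ℕ, ∀ᵐ x ∂μ, ∃ L, Tendsto (fun t : ℕ =>
          (∏ r : Fin D, ((Ls Q t r : ℕ) : ℂ))⁻¹ *
          ∑ z ∈ Fintype.piFinset (fun r : Fin D => range (Ls Q t r)),
            F' (Ψ (∏ r : Fin D, a r ^ (Q * z r)) (Ψ (gc a D n) x))) atTop (𝓝 L) := by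
        intro n
        have h2 := hBX hmp D Q hQ a (F := F' ∘ Ψ (gc a D n)) (hF'm.comp (hmp _).measurable)
          ⟨1, fun x => hF'1 _⟩
        filter_upwards [h2] with x hx
        obtain ⟨L, hL⟩ := hx
        refine ⟨L, ?_⟩
        have e : (fun t : ℕ => (∏ r : Fin D, ((Ls Q t r : ℕ) : ℂ))⁻¹ *
            ∑ z ∈ Fintype.piFinset (fun r : Fin D => range (Ls Q t r)),
              F' (Ψ (∏ r : Fin D, a r ^ (Q * z r)) (Ψ (gc a D n) x))) =
            fun t : ℕ => (∏ r : Fin D, (((2 ^ t) ^ ((r : ℕ) + 1) / Q : ℕ) : ℂ))⁻¹ *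
            ∑ z ∈ Fintype.piFinset (fun r : Fin D => range ((2 ^ t) ^ ((r : ℕ) + 1) / Q)),
              (F' ∘ Ψ (gc a D n)) (Ψ (∏ r : Fin D, a r ^ (Q * z r)) x) := by
          funext t
          show _ = _
          congr 1
          refine sum_congr rfl fun z _ => ?_
          simp only [Function.comp]
          congr 1
          rw [← Equiv.Perm.mul_apply, ← Equiv.Perm.mul_apply, ← map_mul, ← map_mul, mul_comm]
        rw [e]
        exact hL
      have h3 : ∀ᵐ x ∂μ, ∀ n : ℕ, ∃ L, Tendsto (fun t : ℕ =>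
          (∏ r : Fin D, ((Ls Q t r : ℕ) : ℂ))⁻¹ *
          ∑ z ∈ Fintype.piFinset (fun r : Fin D => range (Ls Q t r)),
            F' (Ψ (∏ r : Fin D, a r ^ (Q * z r)) (Ψ (gc a D n) x))) atTop (𝓝 L) :=
        ae_all_iff.2 h1
      filter_upwards [h3] with x hx
      choose L hL using hx
      exact ⟨(Q : ℂ)⁻¹ * ∑ n ∈ range Q, L n,
        (tendsto_finsetSum (range Q) fun n _ => hL n).const_mul _⟩
    · intro J T hT hT0 hdis G hGm hG0 hG
      have hA0 : 0 ≤ 2 * K + 2 * (ε / 4) * J := by positivity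
      have key := hTR D J T (Ii D Q) (fun _ => Vi Q) (Ci Q) (2 * K + 2 * (ε / 4) * J) hA0
        (by
          intro M _ B f τ hτ
          obtain ⟨U, h, hU0, hh0, hUh, hUs, hhs⟩ := hblk M B f (univ.biUnion T) (by
            intro t ht
            obtain ⟨j, -, hj⟩ := mem_biUnion.1 ht
            exact hT0 j t hj)
          have h1 : ∀ j x, ‖opZ D (Ii D Q (τ j x)) (Vi Q) (Ci Q (τ j x)) B f x‖ ^ 2 ≤
              2 * U (τ j x) x ^ 2 + 2 * h x ^ 2 := by
            intro j x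
            rw [opZ_eq]
            have h2 := hUh (τ j x) (mem_biUnion.2 ⟨j, mem_univ _, hτ j x⟩) x
            have h3 : ‖ml (fun k => w D (2 ^ τ j x) (fun r => B r * th k) -
                sm D Q (τ j x) (fun r => B r * th k)) f x‖ ^ 2 ≤ (U (τ j x) x + h x) ^ 2 :=
              pow_le_pow_left₀ (norm_nonneg _) h2 2
            nlinarith [sq_nonneg (U (τ j x) x - h x)]
          have h2 : ∀ x, ∑ j, U (τ j x) x ^ 2 ≤ ∑ t ∈ univ.biUnion T, U t x ^ 2 := by
            intro x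
            have hinj : Function.Injective (fun j => τ j x) := by
              intro i j hij
              by_contra hne
              exact (Finset.disjoint_left.1 (hdis i j hne)) (hτ i x)
                (by
                  have hij' : τ i x = τ j x := hij
                  rw [hij']
                  exact hτ j x)
            rw [← sum_image (f := fun t => U t x ^ 2) (s := univ) (g := fun j => τ j x)
              (fun i _ j _ h => hinj h)]
            refine sum_le_sum_of_subset_of_nonneg ?_ fun _ _ _ => sq_nonneg _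
            intro t ht
            obtain ⟨j, -, rfl⟩ := mem_image.1 ht
            exact mem_biUnion.2 ⟨j, mem_univ _, hτ j x⟩
          calc ∑ j, ∑ x, ‖opZ D (Ii D Q (τ j x)) (Vi Q) (Ci Q (τ j x)) B f x‖ ^ 2
              ≤ ∑ j : Fin J, ∑ x, (2 * U (τ j x) x ^ 2 + 2 * h x ^ 2) :=
                sum_le_sum fun j _ => sum_le_sum fun x _ => h1 j x
            _ = 2 * ∑ x, ∑ j, U (τ j x) x ^ 2 + J * (2 * ∑ x, h x ^ 2) := by
                rw [sum_comm (s := (univ : Finset (ZMod M)))]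
                simp only [sum_add_distrib, ← mul_sum, sum_const, card_univ, Fintype.card_fin,
                  nsmul_eq_mul]
                ring
            _ ≤ 2 * ∑ x, ∑ t ∈ univ.biUnion T, U t x ^ 2 + J * (2 * ∑ x, h x ^ 2) := by
                have := sum_le_sum fun x (_ : x ∈ (univ : Finset (ZMod M))) => h2 x
                linarith
            _ = 2 * ∑ t ∈ univ.biUnion T, ∑ x, U t x ^ 2 + J * (2 * ∑ x, h x ^ 2) := by
                rw [sum_comm]
            _ ≤ 2 * (K * ∑ x, ‖f x‖ ^ 2) + J * (2 * (ε / 4 * ∑ x, ‖f x‖ ^ 2)) := by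
                gcongr
            _ = _ := by ring)
        hmp a hF'm hF'1 G hGm hG0 (fun j x => by
          obtain ⟨t, ht, hle⟩ := hG j x
          exact ⟨t, ht, by rw [opX_eq]; exact hle⟩)
      refine key.trans ?_
      have hint : ∫ x, ‖F' x‖ ^ 2 ∂μ ≤ 1 := by
        have h1 : ∫ x, ‖F' x‖ ^ 2 ∂μ ≤ ∫ _, (1 : ℝ) ∂μ := by
          refine integral_mono ?_ (integrable_const _) fun x => ?_
          · refine Integrable.of_bound (hF'm.norm.pow_const 2).aestronglyMeasurable 1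
              (Eventually.of_forall fun x => ?_)
            rw [Real.norm_eq_abs, abs_of_nonneg (sq_nonneg _)]
            exact pow_le_one₀ (norm_nonneg _) (hF'1 x)
          · exact pow_le_one₀ (norm_nonneg _) (hF'1 x)
        simpa using h1
      have hint0 : 0 ≤ ∫ x, ‖F' x‖ ^ 2 ∂μ := integral_nonneg fun x => sq_nonneg _
      calc 2 * (2 * K + 2 * (ε / 4) * J) * ∫ x, ‖F' x‖ ^ 2 ∂μ ≤
          2 * (2 * K + 2 * (ε / 4) * J) * 1 := by gcongr
        _ = 4 * K + ε * J := by ring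
  filter_upwards [main] with x ⟨L, hL⟩
  refine ⟨s * L, ?_⟩
  simp only [hcav]
  exact hL.const_mul _

end Pool.Agent.Zk4.PE
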