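import Pool.Agent.Zk89.PE.Defs

/-!
# Exponential sums along the moment curve at two comparable lengths
-/

set_option autoImplicit false

open Finset Filter Topology

noncomputable section

namespace Pool.Agent.Zk4.PE

open Pool.Agent.Zk89.MT

theorem XX_scale (D N a : ℕ) (ha : 1 ≤ a) (β : ℕ → ℝ) :
    XX D (a * N) β ≤ (a : ℝ) ^ D * XX D N β := by
  unfold XX
  rw [mul_sum]
  refine sum_le_sum fun r hr => ?_
  have ha1 : (1 : ℝ) ≤ a := by exact_mod_cast ha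
  have h1 : (a : ℝ) ^ (r + 1) ≤ (a : ℝ) ^ D := pow_le_pow_right₀ ha1 (mem_range.1 hr)
  push_cast
  rw [mul_pow, mul_assoc]
  exact mul_le_mul_of_nonneg_right h1 (by positivity)

theorem XX_double (D N j : ℕ) (β : ℕ → ℝ) :
    (2 : ℝ) ^ j * XX D N β ≤ XX D (2 ^ j * N) β := by
  unfold XX
  rw [mul_sum]
  refine sum_le_sum fun r _ => ?_
  have h1 : (2 : ℝ) ^ j ≤ ((2 : ℝ) ^ j) ^ (r + 1) :=
    le_self_pow₀ (one_le_pow₀ (by norm_num)) (by omega)
  push_cast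
  rw [mul_pow, mul_assoc]
  exact mul_le_mul_of_nonneg_right h1 (by positivity)

theorem XX_le_of (D N : ℕ) (hN : 1 ≤ N) (β : ℕ → ℝ) (P : ℝ)
    (h : ∀ r < D, |β r| ≤ P / (N : ℝ) ^ (r + 1)) : XX D N β ≤ D * P := by
  unfold XX
  have hN0 : (0 : ℝ) < N := by exact_mod_cast hN
  refine (sum_le_sum (g := fun _ => P) fun r hr => ?_).trans ?_
  · have h1 := h r (mem_range.1 hr)
    rw [le_div_iff₀ (by positivity)] at h1
    linarith
  · rw [sum_const, card_range, nsmul_eq_mul]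

/-- the inverse theorem for the bad times -/
theorem bad_frac (D : ℕ) {δ : ℝ} (hδ : 0 < δ) (hδ1 : δ ≤ 1) : ∃ P : ℝ, 1 ≤ P ∧
    ∀ (u K t : ℕ) (ξ : ℕ → ℝ), 1 ≤ u →
      2 * δ ≤ ‖w D (u * 2 ^ t) ξ - w D (2 ^ (K + t)) ξ‖ →
      ∃ q : ℕ, 1 ≤ q ∧ (q : ℝ) ≤ P ∧ ∃ b : ℕ → ℤ, ∀ r < D,
        |ξ r - b r / q| ≤ P / ((2 : ℝ) ^ t) ^ (r + 1) := by
  obtain ⟨C, m, hC, hm, hW⟩ := weyl D
  have hC1 : (1 : ℝ) ≤ C := by exact_mod_cast hC
  have hu1 : (1 : ℝ) ≤ δ⁻¹ := (one_le_inv₀ hδ).2 hδ1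
  have hP1 : (1 : ℝ) ≤ C * δ⁻¹ ^ m := by
    have := one_le_pow₀ hu1 (n := m)
    nlinarith
  refine ⟨C * δ⁻¹ ^ m, hP1, fun u K t ξ hu hb => ?_⟩
  have key : ∀ N : ℕ, 2 ^ t ≤ N → δ ≤ ‖w D N ξ‖ → ∃ q : ℕ, 1 ≤ q ∧ (q : ℝ) ≤ C * δ⁻¹ ^ m ∧
      ∃ b : ℕ → ℤ, ∀ r < D, |ξ r - b r / q| ≤ C * δ⁻¹ ^ m / ((2 : ℝ) ^ t) ^ (r + 1) := by
    intro N hN hw
    have h2t : 1 ≤ 2 ^ t := Nat.one_le_two_pow
    obtain ⟨q, hq, hq1, b, hb⟩ := hW N δ⁻¹ ξ (by omega) hu1 (by
      rw [inv_mul_eq_div, le_div_iff₀ hδ, one_mul]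
      exact hw)
    refine ⟨q, hq, hq1, b, fun r hr => (hb r hr).trans ?_⟩
    have hN' : (2 : ℝ) ^ t ≤ N := by exact_mod_cast hN
    have h3 : ((2 : ℝ) ^ t) ^ (r + 1) ≤ (N : ℝ) ^ (r + 1) :=
      pow_le_pow_left₀ (by positivity) hN' _
    have h4 : (0 : ℝ) ≤ C * δ⁻¹ ^ m := by linarith
    exact div_le_div_of_nonneg_left h4 (by positivity) h3
  by_cases h1 : δ ≤ ‖w D (u * 2 ^ t) ξ‖
  · exact key _ (Nat.le_mul_of_pos_left _ (by omega)) h1
  · by_cases h2 : δ ≤ ‖w D (2 ^ (K + t)) ξ‖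
    · exact key _ (Nat.pow_le_pow_right (by norm_num) (by omega)) h2
    · exfalso
      push Not at h1 h2
      have := norm_sub_le (w D (u * 2 ^ t) ξ) (w D (2 ^ (K + t)) ξ)
      linarith

theorem frac_unique {P x y ξ : ℝ} {q q' : ℕ} {b b' : ℤ} (hq : 1 ≤ q) (hq' : 1 ≤ q')
    (hqP : (q : ℝ) ≤ P) (hqP' : (q' : ℝ) ≤ P) (hx : |ξ - b / q| ≤ x) (hy : |ξ - b' / q'| ≤ y)
    (h : (x + y) * P ^ 2 < 1) : (b : ℝ) / q = b' / q' := by
  have hq0 : (0 : ℝ) < q := by exact_mod_cast hq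
  have hq0' : (0 : ℝ) < q' := by exact_mod_cast hq'
  by_contra hne
  have h1 : |(b : ℝ) / q - b' / q'| ≤ x + y := by
    have e : (b : ℝ) / q - b' / q' = (ξ - b' / q') - (ξ - b / q) := by ring
    rw [e]
    exact (abs_sub _ _).trans (by linarith)
  have h2 : (b : ℝ) / q - b' / q' = ((b * q' - b' * q : ℤ) : ℝ) / (q * q') := by
    push_cast
    field_simp
  have h3 : (b * q' - b' * q : ℤ) ≠ 0 := by
    intro h0
    rw [h0, Int.cast_zero, zero_div, sub_eq_zero] at h2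
    exact hne h2
  have h4 : (1 : ℝ) ≤ |((b * q' - b' * q : ℤ) : ℝ)| := by
    exact_mod_cast Int.one_le_abs h3
  rw [h2, abs_div, abs_of_pos (mul_pos hq0 hq0'), div_le_iff₀ (mul_pos hq0 hq0')] at h1
  have h5 : (q : ℝ) * q' ≤ P ^ 2 := by
    rw [sq]
    exact mul_le_mul hqP hqP' hq0'.le (hq0.le.trans hqP)
  have hxy : 0 ≤ x + y := by
    have := abs_nonneg (ξ - b / q)
    have := abs_nonneg (ξ - b' / q')
    linarith
  have h6 : (x + y) * ((q : ℝ) * q') ≤ (x + y) * P ^ 2 := mul_le_mul_of_nonneg_left h5 hxy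
  linarith

/-- comparison on major arcs -/
theorem major_bound (D u K t q : ℕ) (hu : 1 ≤ u) (hq : 1 ≤ q) (b : ℕ → ℤ) (ξ : ℕ → ℝ) {P X : ℝ}
    (hqP : (q : ℝ) ≤ P) (hX : XX D (2 ^ t) (fun r => ξ r - b r / q) ≤ X) :
    ‖w D (u * 2 ^ t) ξ - w D (2 ^ (K + t)) ξ‖ ≤
      2 * P / 2 ^ t * (2 + 2 * Real.pi * (((u : ℝ) ^ D + ((2 : ℝ) ^ K) ^ D) * X)) +
      2 * Real.pi * (((u : ℝ) ^ D + ((2 : ℝ) ^ K) ^ D) *
        XX D (2 ^ t) (fun r => ξ r - b r / q)) := by
  set β : ℕ → ℝ := fun r => ξ r - b r / q with hβ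
  have hpi := Real.pi_pos
  have eξ : ξ = fun r => (b r : ℝ) / q + β r := by
    funext r
    simp only [hβ]
    ring
  set Y := XX D (2 ^ t) β with hY
  have hY0 : 0 ≤ Y := XX_nonneg _ _ _
  have h2t : (0 : ℝ) < 2 ^ t := by positivity
  -- one length
  have one : ∀ a : ℕ, 1 ≤ a → ‖w D (a * 2 ^ t) ξ - GS D q b‖ ≤
      2 * P / 2 ^ t * (1 + 2 * Real.pi * ((a : ℝ) ^ D * X)) + 2 * Real.pi * ((a : ℝ) ^ D * Y) := by
    intro a ha
    have ha1 : (1 : ℝ) ≤ a := by exact_mod_cast ha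
    have hN : 1 ≤ a * 2 ^ t := Nat.one_le_iff_ne_zero.2 (by positivity)
    have hsc := XX_scale D (2 ^ t) a ha β
    have hsX : XX D (a * 2 ^ t) β ≤ (a : ℝ) ^ D * X :=
      hsc.trans (mul_le_mul_of_nonneg_left hX (by positivity))
    have h1 := w_major D hN hq b β
    have h2 := w_near D hN β
    have h3 := GS_norm_le D q b
    have e : w D (a * 2 ^ t) ξ - GS D q b =
        (w D (a * 2 ^ t) (fun r => (b r : ℝ) / q + β r) - GS D q b * w D (a * 2 ^ t) β) +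
        GS D q b * (w D (a * 2 ^ t) β - 1) := by
      rw [← eξ]
      ring
    rw [e]
    refine (norm_add_le _ _).trans (add_le_add ?_ ?_)
    · refine h1.trans ?_
      have hP0 : 0 ≤ P := (Nat.cast_nonneg q).trans hqP
      have h4 : 2 * (q : ℝ) / ((a * 2 ^ t : ℕ) : ℝ) ≤ 2 * P / 2 ^ t := by
        have h5 : (2 : ℝ) ^ t ≤ ((a * 2 ^ t : ℕ) : ℝ) := by
          push_cast
          nlinarith
        exact div_le_div₀ (by positivity) (by linarith) h2t h5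
      have hXX := XX_nonneg D (a * 2 ^ t) β
      have h6 : 1 + 2 * Real.pi * XX D (a * 2 ^ t) β ≤ 1 + 2 * Real.pi * ((a : ℝ) ^ D * X) := by
        have := mul_le_mul_of_nonneg_left hsX (show (0 : ℝ) ≤ 2 * Real.pi by positivity)
        linarith
      exact mul_le_mul h4 h6 (by positivity) (by positivity)
    · rw [norm_mul]
      have h5 : ‖GS D q b‖ * ‖w D (a * 2 ^ t) β - 1‖ ≤ 1 * (2 * Real.pi * XX D (a * 2 ^ t) β) :=
        mul_le_mul h3 h2 (norm_nonneg _) (by norm_num)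
      rw [one_mul] at h5
      exact h5.trans (mul_le_mul_of_nonneg_left hsc (by positivity))
  have hA := one u hu
  have hB := one (2 ^ K) Nat.one_le_two_pow
  rw [← pow_add] at hB
  have e : w D (u * 2 ^ t) ξ - w D (2 ^ (K + t)) ξ =
      (w D (u * 2 ^ t) ξ - GS D q b) - (w D (2 ^ (K + t)) ξ - GS D q b) := by ring
  rw [e]
  refine (norm_sub_le _ _).trans ((add_le_add hA hB).trans (le_of_eq ?_))
  push_cast
  ring

/-- **The module EX.** -/
theorem thmEX : Pool.Agent.Zk89.PE.S_EX := by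
  intro D u K hu ε hε
  have hpi := Real.pi_pos
  set δ : ℝ := min 1 (ε / 8) with hδd
  have hδ : 0 < δ := lt_min one_pos (by positivity)
  have hδ1 : δ ≤ 1 := min_le_left _ _
  have hδε : δ ≤ ε / 8 := min_le_right _ _
  obtain ⟨P, hP1, hP⟩ := bad_frac D hδ hδ1
  have hP0 : 0 < P := by linarith
  set A : ℝ := (u : ℝ) ^ D + ((2 : ℝ) ^ K) ^ D with hA
  have hu1 : (1 : ℝ) ≤ u := by exact_mod_cast hu
  have hA0 : 0 < A := by positivity
  set κ : ℝ := δ / (2 * Real.pi * A) with hκ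
  have hκ0 : 0 < κ := by positivity
  obtain ⟨t₀, ht₀⟩ := pow_unbounded_of_one_lt
    (2 * P * P ^ 2 + 2 * P * (2 + 2 * Real.pi * (A * (D * P))) / δ) (one_lt_two (α := ℝ))
  obtain ⟨R, hR⟩ := pow_unbounded_of_one_lt (D * P / κ) (one_lt_two (α := ℝ))
  have hc1 : 0 ≤ 2 * P * P ^ 2 := by positivity
  have hc2 : 0 ≤ 2 * P * (2 + 2 * Real.pi * (A * (D * P))) / δ := by positivity
  -- the number of bad times
  have count : ∀ (ξ : ℕ → ℝ) (T : ℕ), (((range T).filter fun t =>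
      2 * δ ≤ ‖w D (u * 2 ^ t) ξ - w D (2 ^ (K + t)) ξ‖).card) ≤ t₀ + R := by
    intro ξ T
    set Bad : ℕ → Prop := fun t => 2 * δ ≤ ‖w D (u * 2 ^ t) ξ - w D (2 ^ (K + t)) ξ‖ with hBad
    by_cases hex : ∃ t, t₀ ≤ t ∧ Bad t
    · classical
      set t₁ := Nat.find hex with ht₁
      have hs := Nat.find_spec hex
      rw [← ht₁] at hs
      obtain ⟨q, hq, hqP, b, hb⟩ := hP u K t₁ ξ hu hs.2
      set β : ℕ → ℝ := fun r => ξ r - b r / q with hβ
      have h2pos : ∀ t : ℕ, (0 : ℝ) < 2 ^ t := fun t => by positivity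
      have hgrow : ∀ t, t₀ ≤ t → (2 : ℝ) ^ t₀ ≤ 2 ^ t := fun t ht =>
        pow_le_pow_right₀ (by norm_num) ht
      -- upper bound for all bad times
      have hup : ∀ t, t₁ ≤ t → Bad t → XX D (2 ^ t) β ≤ D * P := by
        intro t ht hbt
        obtain ⟨q', hq', hqP', b', hb'⟩ := hP u K t ξ hu hbt
        refine XX_le_of D (2 ^ t) Nat.one_le_two_pow β P fun r hr => ?_
        have h1 := hb r hr
        have h2 := hb' r hr
        have hpw : ∀ s, t₀ ≤ s → P / ((2 : ℝ) ^ s) ^ (r + 1) ≤ P / 2 ^ t₀ := by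
          intro s hs
          have h3 : (2 : ℝ) ^ s ≤ ((2 : ℝ) ^ s) ^ (r + 1) :=
            le_self_pow₀ (one_le_pow₀ (by norm_num)) (by omega)
          exact div_le_div_of_nonneg_left hP0.le (h2pos _) ((hgrow s hs).trans h3)
        have h3 := frac_unique hq hq' hqP hqP' (h1.trans (hpw t₁ hs.1))
          (h2.trans (hpw t (hs.1.trans ht))) (by
            have h4 : P / (2 : ℝ) ^ t₀ + P / 2 ^ t₀ = 2 * P / 2 ^ t₀ := by ring
            rw [h4, div_mul_eq_mul_div, div_lt_one (h2pos _)]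
            linarith)
        have h4 : β r = ξ r - b' r / q' := by
          simp only [hβ]
          rw [h3]
        rw [h4]
        push_cast
        exact h2
      have hlow : κ ≤ XX D (2 ^ t₁) β := by
        have h1 := major_bound D u K t₁ q hu hq b ξ hqP (hup t₁ le_rfl hs.2)
        have h2 := hs.2
        simp only [hBad] at h2
        have h3 : 2 * P / 2 ^ t₁ * (2 + 2 * Real.pi * (A * (D * P))) ≤ δ := by
          rw [div_mul_eq_mul_div, div_le_iff₀ (h2pos _)]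
          have h4 : 2 * P * (2 + 2 * Real.pi * (A * (D * P))) / δ ≤ 2 ^ t₁ := by
            have := hgrow t₁ hs.1
            linarith
          rw [div_le_iff₀ hδ] at h4
          linarith
        have h5 : δ ≤ 2 * Real.pi * (A * XX D (2 ^ t₁) β) := by
          have := h2.trans h1
          linarith
        rw [hκ, div_le_iff₀ (by positivity)]
        calc δ ≤ 2 * Real.pi * (A * XX D (2 ^ t₁) β) := h5
          _ = XX D (2 ^ t₁) β * (2 * Real.pi * A) := by ring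
      have hsub : ((range T).filter Bad) ⊆ range t₀ ∪ Ico t₁ (t₁ + R) := by
        intro t ht
        rw [mem_filter] at ht
        rw [mem_union, mem_range, mem_Ico]
        by_cases h0 : t < t₀
        · exact Or.inl h0
        · right
          push Not at h0
          have h1 : t₁ ≤ t := Nat.find_min' hex ⟨h0, ht.2⟩
          refine ⟨h1, ?_⟩
          by_contra hcon
          push Not at hcon
          obtain ⟨j, rfl⟩ := Nat.exists_eq_add_of_le h1
          have h2 := XX_double D (2 ^ t₁) j β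
          rw [← pow_add, add_comm j t₁] at h2
          have h3 := hup _ h1 ht.2
          have h4 : (2 : ℝ) ^ R ≤ 2 ^ j := pow_le_pow_right₀ (by norm_num) (by omega)
          have h5 : (2 : ℝ) ^ R * κ ≤ 2 ^ j * XX D (2 ^ t₁) β :=
            mul_le_mul h4 hlow hκ0.le (h2pos _).le
          rw [div_lt_iff₀ hκ0] at hR
          linarith
      refine (card_le_card hsub).trans ((card_union_le _ _).trans ?_)
      rw [card_range, Nat.card_Ico]
      omega
    · push Not at hex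
      have hsub : ((range T).filter Bad) ⊆ range t₀ := by
        intro t ht
        rw [mem_filter] at ht
        rw [mem_range]
        by_contra hcon
        push Not at hcon
        exact hex t hcon ht.2
      refine (card_le_card hsub).trans ?_
      rw [card_range]
      omega
  obtain ⟨T₀, hT₀⟩ := exists_nat_ge (8 * ((t₀ + R : ℕ) : ℝ) / ε)
  refine ⟨T₀, fun T hT ξ => ?_⟩
  have hTT : (T₀ : ℝ) ≤ T := by exact_mod_cast hT
  have h8 : 8 * ((t₀ + R : ℕ) : ℝ) ≤ ε * T := by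
    rw [div_le_iff₀ hε] at hT₀
    nlinarith
  have h1 : ∀ t ∈ range T, ‖w D (u * 2 ^ t) ξ - w D (2 ^ (K + t)) ξ‖ ^ 2 ≤
      ε / 2 + if 2 * δ ≤ ‖w D (u * 2 ^ t) ξ - w D (2 ^ (K + t)) ξ‖ then 4 else 0 := by
    intro t _
    have h2 := norm_sub_le (w D (u * 2 ^ t) ξ) (w D (2 ^ (K + t)) ξ)
    have h3 := w_norm_le D (u * 2 ^ t) ξ
    have h4 := w_norm_le D (2 ^ (K + t)) ξ
    have h5 := norm_nonneg (w D (u * 2 ^ t) ξ - w D (2 ^ (K + t)) ξ)
    split_ifs with hb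
    · nlinarith
    · push Not at hb
      have h6 : ‖w D (u * 2 ^ t) ξ - w D (2 ^ (K + t)) ξ‖ ^ 2 ≤ (2 * δ) ^ 2 :=
        pow_le_pow_left₀ h5 hb.le 2
      nlinarith
  refine (sum_le_sum h1).trans ?_
  rw [sum_add_distrib, sum_const, card_range, nsmul_eq_mul, ← sum_filter, sum_const,
    nsmul_eq_mul]
  have h2 : ((((range T).filter fun t =>
      2 * δ ≤ ‖w D (u * 2 ^ t) ξ - w D (2 ^ (K + t)) ξ‖).card : ℕ) : ℝ) ≤ ((t₀ + R : ℕ) : ℝ) := by
    exact_mod_cast count ξ T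
  linarith

end Pool.Agent.Zk4.PE
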